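import Pool.Agent.W2helper56.PK.Stm

/-!
# Piece A2 of project PK: the adversary which encrypts random bits
-/

set_option autoImplicit false

namespace Pool.Agent.W2helper53.PK

open Pool.Agent.NPC Pool.Agent.H620R2.Gauge Pool.Agent.W2helper56.PK

open Classical

section Many

variable {Z β : Type}

/-- run all computations of a list -/
def many : List (DT Z β) → DT Z Unit
  | [] => DT.ret ()
  | D :: l => D.bind fun _ => many l

theorem qs_many (O : Z → Bool) (l : List (DT Z β)) :
    (many l).qs O = l.flatMap fun D => D.qs O := by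
  induction l with
  | nil => rfl
  | cons D l ih => rw [many, DT.qs_bind, ih, List.flatMap_cons]

theorem le_many {q : ℕ} (l : List (DT Z β)) (h : ∀ D ∈ l, D.Le q) :
    (many l).Le (l.length * q) := by
  induction l with
  | nil => exact DT.le_ret _ _
  | cons D l ih =>
    rw [many, List.length_cons, Nat.succ_mul, Nat.add_comm]
    exact DT.le_bind (fun _ => ih fun E hE => h E (by simp [hE])) (h D (by simp))

theorem all_many {P : Z → Prop} (l : List (DT Z β)) (h : ∀ D ∈ l, D.All P) :
    (many l).All P := by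
  induction l with
  | nil => trivial
  | cons D l ih =>
    exact DT.all_bind (fun _ => ih fun E hE => h E (by simp [hE])) (h D (by simp))

end Many

variable {X A B : Type} [DecidableEq X]

theorem mem_pos (S : Sch X A B) (l : List (List Bool)) (x : X) :
    x ∈ S.pos l ↔ ∃ z ∈ l, S.g z = Sum.inl x := by
  unfold Sch.pos
  rw [List.mem_toFinset, List.mem_filterMap]
  refine exists_congr fun z => and_congr_right fun _ => ?_
  rcases S.g z with y | b <;> simp

theorem card_pos_le (S : Sch X A B) (l : List (List Bool)) : (S.pos l).card ≤ l.length := by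
  unfold Sch.pos
  exact (List.toFinset_card_le _).trans (List.length_filterMap_le _ _)

/-- the bits asked by the encryption of `y.1` with the coins `y.2` -/
def QY (S : Sch X A B) (a : A) (ω : X → Bool) (y : Bool × B) : Finset X :=
  S.pos ((S.enc y.2 ((S.gen a).run (S.orc ω)).1 y.1).qs (S.orc ω))

/-- the bits asked by the key generation -/
def QK (S : Sch X A B) (a : A) (ω : X → Bool) : Finset X := S.pos ((S.gen a).qs (S.orc ω))

/-- the `j`-th encryption asks a bit of the key generation which no other encryption asks -/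
def bad (S : Sch X A B) {k : ℕ} (j : Fin k) (w : A × (X → Bool) × (Fin k → Bool × B)) : Prop :=
  ∃ x, x ∈ QY S w.1 w.2.1 (w.2.2 j) ∧ x ∈ QK S w.1 w.2.1 ∧
    ∀ l, l ≠ j → x ∉ QY S w.1 w.2.1 (w.2.2 l)

theorem card_bad_le (S : Sch X A B) {k q : ℕ} (hS : ∀ a, (S.gen a).Le q)
    (w : A × (X → Bool) × (Fin k → Bool × B)) : Nat.card {j : Fin k // bad S j w} ≤ q := by
  have h1 : (QK S w.1 w.2.1).card ≤ q := (card_pos_le S _).trans (DT.length_qs _ (hS w.1))
  refine le_trans ?_ h1
  have h2 : Nat.card {y // y ∈ QK S w.1 w.2.1} = (QK S w.1 w.2.1).card := by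
    rw [Nat.card_eq_fintype_card, Fintype.card_coe]
  rw [← h2]
  choose x hx1 hx2 hx3 using fun j : {j : Fin k // bad S j w} => j.2
  refine Nat.card_le_card_of_injective
    (fun j => (⟨x j, hx2 j⟩ : {y // y ∈ QK S w.1 w.2.1})) fun i j hij => ?_
  by_contra hne
  have h2 : x i = x j := congrArg Subtype.val hij
  have h3 : (i : Fin k) ≠ j := fun h => hne (Subtype.ext h)
  exact hx3 j i h3 (h2 ▸ hx1 i)

/-- all events have the same number of elements -/
theorem card_bad_swap (S : Sch X A B) {k : ℕ} (i j : Fin k) :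
    Nat.card {w : A × (X → Bool) × (Fin k → Bool × B) // bad S i w} =
      Nat.card {w : A × (X → Bool) × (Fin k → Bool × B) // bad S j w} := by
  let e : (A × (X → Bool) × (Fin k → Bool × B)) ≃ (A × (X → Bool) × (Fin k → Bool × B)) :=
    (Equiv.refl A).prodCongr ((Equiv.refl (X → Bool)).prodCongr
      ((Equiv.swap i j).arrowCongr (Equiv.refl (Bool × B))))
  refine Nat.card_congr (e.subtypeEquiv fun w => ?_)
  have hs : ∀ l, (e w).2.2 l = w.2.2 (Equiv.swap i j l) := by
    intro l
    simp [e, Equiv.arrowCongr, Equiv.symm_swap]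
  have h1 : (e w).1 = w.1 := rfl
  have h2 : (e w).2.1 = w.2.1 := rfl
  unfold bad
  rw [h1, h2]
  refine exists_congr fun x => and_congr ?_ (and_congr_right fun _ => ?_)
  · rw [hs, Equiv.swap_apply_right]
  · constructor
    · intro h l hl
      rw [hs]
      apply h
      intro h3
      apply hl
      have := congrArg (Equiv.swap i j) h3
      rwa [Equiv.swap_apply_self, Equiv.swap_apply_left] at this
    · intro h l hl
      have h3 := h (Equiv.swap i j l) (by
        intro h4
        apply hl
        have := congrArg (Equiv.swap i j) h4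
        rwa [Equiv.swap_apply_self, Equiv.swap_apply_right] at this)
      rwa [hs, Equiv.swap_apply_self] at h3

variable [Fintype X] [Fintype A] [Fintype B]

theorem sum_bad (S : Sch X A B) {k q : ℕ} (hS : ∀ a, (S.gen a).Le q) (j : Fin k) :
    k * Nat.card {w : A × (X → Bool) × (Fin k → Bool × B) // bad S j w} ≤
      q * Nat.card (A × (X → Bool) × (Fin k → Bool × B)) := by
  have e1 : {p : Fin k × (A × (X → Bool) × (Fin k → Bool × B)) // bad S p.1 p.2} ≃
      Σ i : Fin k, {w : A × (X → Bool) × (Fin k → Bool × B) // bad S i w} :=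
    { toFun := fun p => ⟨p.1.1, p.1.2, p.2⟩
      invFun := fun s => ⟨(s.1, s.2.1), s.2.2⟩
      left_inv := fun _ => rfl
      right_inv := fun _ => rfl }
  have e2 : {p : Fin k × (A × (X → Bool) × (Fin k → Bool × B)) // bad S p.1 p.2} ≃
      Σ w : A × (X → Bool) × (Fin k → Bool × B), {i : Fin k // bad S i w} :=
    { toFun := fun p => ⟨p.1.2, p.1.1, p.2⟩
      invFun := fun s => ⟨(s.2.1, s.1), s.2.2⟩
      left_inv := fun _ => rfl
      right_inv := fun _ => rfl }
  have h1 := (Nat.card_congr e1).symm.trans (Nat.card_congr e2)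
  rw [Nat.card_sigma, Nat.card_sigma] at h1
  calc k * Nat.card {w : A × (X → Bool) × (Fin k → Bool × B) // bad S j w}
      = ∑ i : Fin k, Nat.card {w : A × (X → Bool) × (Fin k → Bool × B) // bad S i w} := by
        rw [Finset.sum_congr rfl fun i _ => card_bad_swap S i j, Finset.sum_const,
          Finset.card_univ, Fintype.card_fin, smul_eq_mul]
    _ = ∑ w : A × (X → Bool) × (Fin k → Bool × B), Nat.card {i : Fin k // bad S i w} := h1
    _ ≤ ∑ _w : A × (X → Bool) × (Fin k → Bool × B), q :=
        Finset.sum_le_sum fun w _ => card_bad_le S hS w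
    _ = q * Nat.card (A × (X → Bool) × (Fin k → Bool × B)) := by
        rw [Finset.sum_const, Finset.card_univ, smul_eq_mul, Nat.card_eq_fintype_card, mul_comm]

/-- the adversary which encrypts the bits `(f l).1` with the coins `(f l).2` -/
noncomputable def adv (S : Sch X A B) {ι : Type} [Fintype ι] (f : ι → Bool × B) : Att Unit :=
  fun pk _ => many ((Finset.univ : Finset ι).toList.map fun l => S.enc (f l).2 pk (f l).1)

theorem mem_known (S : Sch X A B) {ι : Type} [Fintype ι] (f : ι → Bool × B) (t : S.Smp) (x : X) :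
    x ∈ S.known (adv S f) t ↔ ∃ l, x ∈ QY S t.1 t.2.1 (f l) := by
  unfold Sch.known adv
  rw [mem_pos, qs_many]
  simp only [List.mem_flatMap, List.mem_map, Finset.mem_toList, Finset.mem_univ, true_and]
  constructor
  · rintro ⟨z, ⟨D, ⟨l, rfl⟩, h1⟩, h2⟩
    exact ⟨l, (mem_pos S _ x).2 ⟨z, h1, h2⟩⟩
  · rintro ⟨l, hl⟩
    obtain ⟨z, h1, h2⟩ := (mem_pos S _ x).1 hl
    exact ⟨z, ⟨_, ⟨l, rfl⟩, h1⟩, h2⟩

theorem p_bobs : P_bobs := by
  intro X A B _ _ _ _ _ _ S q k G hk hS
  set j0 : Fin k := ⟨0, hk⟩ with hj0
  let F : Type := {l : Fin k // l ≠ j0} → Bool × B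
  have hFne : Nonempty F := ⟨fun _ => (true, Classical.arbitrary B)⟩
  have hcard : Fintype.card {l : Fin k // l ≠ j0} ≤ k := by
    refine (Fintype.card_subtype_le _).trans ?_
    simp
  let badf : F → S.Smp → Prop := fun f t =>
    ∃ x, x ∈ S.QB t ∧ x ∈ S.QA t ∧ x ∉ S.known (adv S f) t
  have key : ∃ f : F, k * Nat.card {t : S.Smp // badf f t} ≤ q * Nat.card S.Smp := by
    by_contra hcon
    push Not at hcon
    have h1 := sum_bad S hS.gen_le j0
    have e : {w : A × (X → Bool) × (Fin k → Bool × B) // bad S j0 w} ≃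
        Σ f : F, {t : S.Smp // badf f t} := by
      refine Equiv.trans (Equiv.subtypeEquiv (q := fun p : F × S.Smp => badf p.1 p.2)
        ({ toFun := fun w => (((Equiv.funSplitAt j0 (Bool × B)) w.2.2).2,
              (w.1, w.2.1, (w.2.2 j0).1, (w.2.2 j0).2))
           invFun := fun p => (p.2.1, p.2.2.1,
              (Equiv.funSplitAt j0 (Bool × B)).symm ((p.2.2.2.1, p.2.2.2.2), p.1))
           left_inv := ?_
           right_inv := ?_ } : (A × (X → Bool) × (Fin k → Bool × B)) ≃ F × S.Smp) ?_) ?_
      · rintro ⟨a, ω, s⟩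
        have : (Equiv.funSplitAt j0 (Bool × B)).symm ((Equiv.funSplitAt j0 (Bool × B)) s) = s :=
          Equiv.symm_apply_apply _ _
        simp only [Prod.mk.injEq, true_and]
        exact this
      · rintro ⟨f, a, ω, b, v⟩
        have h := Equiv.apply_symm_apply (Equiv.funSplitAt j0 (Bool × B)) ((b, v), f)
        have h2 := congrArg Prod.fst h
        have h3 := congrArg Prod.snd h
        have h4 : (Equiv.funSplitAt j0 (Bool × B)).symm ((b, v), f) j0 = (b, v) := h2
        simp only [h3, h4]
      · rintro ⟨a, ω, s⟩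
        change bad S j0 (a, ω, s) ↔ ∃ x, x ∈ QY S a ω (s j0) ∧ x ∈ QK S a ω ∧
          x ∉ S.known (adv S fun l : {l : Fin k // l ≠ j0} => s l) (a, ω, (s j0).1, (s j0).2)
        unfold bad
        refine exists_congr fun x => and_congr_right fun _ => and_congr_right fun _ => ?_
        rw [mem_known]
        constructor
        · rintro h ⟨l, hl⟩
          exact h l l.2 hl
        · rintro h l hl hx
          exact h ⟨⟨l, hl⟩, hx⟩
      · exact
          { toFun := fun p => ⟨p.1.1, p.1.2, p.2⟩
            invFun := fun s => ⟨(s.1, s.2.1), s.2.2⟩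
            left_inv := fun _ => rfl
            right_inv := fun _ => rfl }
    rw [Nat.card_congr e, Nat.card_sigma] at h1
    have h2 : Nat.card (A × (X → Bool) × (Fin k → Bool × B)) = Nat.card F * Nat.card S.Smp := by
      rw [← Nat.card_prod]
      refine Nat.card_congr
        ({ toFun := fun w => (((Equiv.funSplitAt j0 (Bool × B)) w.2.2).2,
              (w.1, w.2.1, (w.2.2 j0).1, (w.2.2 j0).2))
           invFun := fun p => (p.2.1, p.2.2.1,
              (Equiv.funSplitAt j0 (Bool × B)).symm ((p.2.2.2.1, p.2.2.2.2), p.1))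
           left_inv := ?_
           right_inv := ?_ } : (A × (X → Bool) × (Fin k → Bool × B)) ≃ F × S.Smp)
      · rintro ⟨a, ω, s⟩
        have : (Equiv.funSplitAt j0 (Bool × B)).symm ((Equiv.funSplitAt j0 (Bool × B)) s) = s :=
          Equiv.symm_apply_apply _ _
        simp only [Prod.mk.injEq, true_and]
        exact this
      · rintro ⟨f, a, ω, b, v⟩
        have h := Equiv.apply_symm_apply (Equiv.funSplitAt j0 (Bool × B)) ((b, v), f)
        have h2 := congrArg Prod.fst h
        have h3 := congrArg Prod.snd h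
        have h4 : (Equiv.funSplitAt j0 (Bool × B)).symm ((b, v), f) j0 = (b, v) := h2
        simp only [h3, h4]
    rw [h2, Finset.mul_sum] at h1
    have h3 : ∑ _f : F, q * Nat.card S.Smp < ∑ f : F, k * Nat.card {t : S.Smp // badf f t} :=
      Finset.sum_lt_sum_of_nonempty Finset.univ_nonempty fun f _ => hcon f
    rw [Finset.sum_const, Finset.card_univ, smul_eq_mul, ← Nat.card_eq_fintype_card] at h3
    have h4 : q * (Nat.card F * Nat.card S.Smp) = Nat.card F * (q * Nat.card S.Smp) := by ring
    omega
  obtain ⟨f, hf⟩ := key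
  refine ⟨adv S f, fun pk c => ⟨?_, ?_⟩, hf⟩
  · refine DT.Le.mono ?_ (le_many (q := q) _ ?_)
    · rw [List.length_map, Finset.length_toList, Finset.card_univ]
      exact Nat.mul_le_mul_right _ hcard
    · intro D hD
      rw [List.mem_map] at hD
      obtain ⟨l, -, rfl⟩ := hD
      exact hS.enc_le _ _ _
  · refine all_many _ ?_
    intro D hD
    rw [List.mem_map] at hD
    obtain ⟨l, -, rfl⟩ := hD
    exact hS.enc_all _ _ _

end Pool.Agent.W2helper53.PK
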