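import Pool.Agent.W2helper56.PK.Stm

/-!
# Piece C1 of project PK: certificates cannot be found
-/

set_option autoImplicit false

namespace Pool.Agent.W2helper53.PK

open Pool.Agent.NPC Pool.Agent.H620R2.Gauge Pool.Agent.W2helper56.PK

open Classical

theorem pairBits_inj {x w x' w' : List Bool} (h : pairBits x w = pairBits x' w') :
    x = x' ∧ w = w' := by
  have h1 := congrArg unpair h
  rw [unpair_pairBits, unpair_pairBits] at h1
  exact Prod.mk.inj h1

/-- the blind oracle depends on few bits of the random oracle -/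
theorem blind_congr (t : ℕ) {E R R' : Oracle}
    (h : ∀ u : List Bool, ¬ (u.take 1 = [true] ∧ t ≤ u.length) → R u = R' u) :
    blind t (Ok E R) = blind t (Ok E R') := by
  funext z
  unfold blind
  split_ifs with hz
  · rfl
  · by_cases hlt : z.length < t
    · exact Ok_congr (fun _ _ => rfl) (fun u hu => h u fun h1 => by omega) z hlt
    · rcases z with _ | ⟨c, z⟩
      · rfl
      cases c with
      | false => exact h _ (by simp)
      | true =>
        rcases z with _ | ⟨c, z⟩
        · rfl
        cases c with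
        | false => rfl
        | true => exact absurd ⟨not_lt.1 hlt, rfl⟩ hz

theorem cpos_inj {s : List Bool} {i j : ℕ} (h : cpos s i = cpos s j) : i = j := by
  unfold cpos at h
  have h1 := (pairBits_inj (List.cons.inj h).2).2
  have h2 := congrArg (List.count true) h1
  simpa [List.count_append, List.count_replicate] using h2

/-- the `i`-th question on the blind path is a correct certificate -/
def hit {β : Type} (E R : Oracle) (t : ℕ) (D : DT (List Bool) β) (i : ℕ) (s : List Bool)
    (b : Bool) : Prop :=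
  (D.qs (blind t (Ok E R)))[i]? = some (true :: true :: pairBits s (b :: crt R s)) ∧
    t ≤ 3 * s.length + 4

theorem exists_hit {β : Type} {E R : Oracle} {t N : ℕ} {D : DT (List Bool) β} (hD : D.Le N)
    (h : D.run (Ok E R) ≠ D.run (blind t (Ok E R))) :
    ∃ i < N, ∃ s b, hit E R t D i s b := by
  have h1 : ∃ z ∈ D.qs (blind t (Ok E R)), Ok E R z ≠ blind t (Ok E R) z := by
    by_contra hcon
    push Not at hcon
    exact h (DT.run_congr hcon).1
  obtain ⟨z, hz, hne⟩ := h1
  have hc : t ≤ z.length ∧ z.take 2 = [true, true] := by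
    by_contra hcon
    exact hne (by unfold blind; rw [if_neg hcon])
  have hv : blind t (Ok E R) z = false := by unfold blind; rw [if_pos hc]
  rw [hv, Bool.ne_false_iff] at hne
  obtain ⟨i, hi, hiz⟩ := List.getElem_of_mem hz
  have hlen := DT.length_qs (blind t (Ok E R)) hD
  refine ⟨i, by omega, ?_⟩
  rcases z with _ | ⟨c, z⟩
  · simp at hc
  rcases z with _ | ⟨c', u⟩
  · simp at hc
  simp only [List.take_succ_cons, List.take_zero, List.cons.injEq, and_true] at hc
  obtain ⟨ht, rfl, rfl⟩ := hc
  rw [Ok_cert, Ck_iff] at hne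
  obtain ⟨s, b, hu, -⟩ := hne
  refine ⟨s, b, ?_, ?_⟩
  · rw [List.getElem?_eq_getElem hi, hiz, hu]
  · rw [hu] at ht
    simp only [List.length_cons, length_pairBits, length_crt] at ht
    omega

section Count

variable {β : Type} (E Λ : Oracle) (a t m : ℕ) (D : DT (List Bool) β) (i : ℕ)

/-- overwrite the first bits of the certificate of `s` -/
noncomputable def ovr {a m τ : ℕ} (s : List Bool) (y : Fin τ → Bool) (ω : Pos a m → Bool) :
    Pos a m → Bool :=
  fun p => if h : ∃ j : Fin τ, p.1 = cpos s j then y h.choose else ω p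

theorem ovr_apply {a m τ : ℕ} {s : List Bool} {y : Fin τ → Bool} {ω : Pos a m → Bool}
    {p : Pos a m} {j : Fin τ} (h : p.1 = cpos s j) : ovr s y ω p = y j := by
  have h1 : ∃ j : Fin τ, p.1 = cpos s j := ⟨j, h⟩
  unfold ovr
  rw [dif_pos h1]
  congr 1
  exact Fin.ext (cpos_inj (h1.choose_spec.symm.trans h))

theorem ovr_of_not {a m τ : ℕ} {s : List Bool} {y : Fin τ → Bool} {ω : Pos a m → Bool}
    {p : Pos a m} (h : ¬ ∃ j : Fin τ, p.1 = cpos s j) : ovr s y ω p = ω p := by
  unfold ovr
  rw [dif_neg h]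

/-- overwriting does not change the blind oracle -/
theorem blind_ovr {τ : ℕ} {s : List Bool} (hs : t ≤ 3 * s.length + 4) (hτ : τ ≤ s.length)
    (y : Fin τ → Bool) (ω : Pos a m → Bool) :
    blind t (Ok E (ext Λ (ovr s y ω))) = blind t (Ok E (ext Λ ω)) := by
  refine blind_congr t fun u hu => ?_
  unfold ext
  split_ifs with h
  · refine ovr_of_not ?_
    rintro ⟨j, hj⟩
    apply hu
    have hj' : u = cpos s j := hj
    have hl := length_cpos (s := s) (i := j) (by omega)
    rw [hj']
    exact ⟨rfl, by omega⟩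
  · rfl

theorem card_hit (hat : a ≤ t) (hD : D.All fun z => z.length < m) :
    Nat.card {ω : Pos a m → Bool // ∃ s b, hit E (ext Λ ω) t D i s b} * 2 ^ ((t - 4) / 3) ≤
      Nat.card (Pos a m → Bool) := by
  set τ := (t - 4) / 3 with hτ
  have h2 : 2 ^ τ = Nat.card (Fin τ → Bool) := by
    rw [Nat.card_eq_fintype_card, Fintype.card_fun, Fintype.card_bool, Fintype.card_fin]
  rw [h2, ← Nat.card_prod]
  choose s b hsb using fun ω : {ω : Pos a m → Bool // ∃ s b, hit E (ext Λ ω) t D i s b} => ω.2
  have hs : ∀ ω, t ≤ 3 * (s ω).length + 4 := fun ω => (hsb ω).2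
  have hτs : ∀ ω, τ ≤ (s ω).length := fun ω => by have := hs ω; omega
  have hm : ∀ ω, 3 * (s ω).length + 4 < m := by
    intro ω
    have h3 := List.mem_of_getElem? (hsb ω).1
    have h4 := DT.All.qs _ hD _ h3
    simp only [List.length_cons, length_pairBits, length_crt] at h4
    omega
  refine Nat.card_le_card_of_injective (fun p : {ω : Pos a m → Bool //
    ∃ s b, hit E (ext Λ ω) t D i s b} × (Fin τ → Bool) => ovr (s p.1) p.2 p.1.1) ?_
  rintro ⟨ω, y⟩ ⟨ω', y'⟩ heq
  dsimp only at heq
  have hb := blind_ovr E Λ a t m (hs ω) (hτs ω) y ω.1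
  have hb' := blind_ovr E Λ a t m (hs ω') (hτs ω') y' ω'.1
  rw [heq, hb'] at hb
  have h3 := (hsb ω).1
  rw [← hb, (hsb ω').1] at h3
  simp only [Option.some.injEq, List.cons.injEq, true_and] at h3
  obtain ⟨h4, h5⟩ := pairBits_inj h3
  have h6 := (List.cons.inj h5).2
  rw [h4] at h6
  -- the bits of the certificates
  have h7 : ∀ j < (s ω).length, ext Λ ω'.1 (cpos (s ω) j) = ext Λ ω.1 (cpos (s ω) j) := by
    intro j hj
    unfold crt at h6
    exact List.map_inj_left.1 h6 j (List.mem_range.2 hj)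
  have h8 : ω.1 = ω'.1 := by
    funext p
    by_cases hp : ∃ j : Fin τ, p.1 = cpos (s ω) j
    · obtain ⟨j, hj⟩ := hp
      have h9 := h7 j (by have := hτs ω; omega)
      rw [← hj] at h9
      unfold ext at h9
      rw [dif_pos p.2, dif_pos p.2] at h9
      exact h9.symm
    · have h9 := congrFun heq p
      rw [ovr_of_not hp, ovr_of_not (by rw [h4]; exact hp)] at h9
      exact h9
  have h10 : ω = ω' := Subtype.ext h8
  subst h10
  refine Prod.ext rfl ?_
  funext j
  have hl := length_cpos (s := s ω) (i := j) (by have := hτs ω; omega)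
  have hp : a ≤ (cpos (s ω) j).length ∧ (cpos (s ω) j).length < m := by
    have := hs ω
    have := hm ω
    omega
  have h11 := congrFun heq ⟨cpos (s ω) j, hp⟩
  have h12 : ovr (s ω) y ω.1 ⟨cpos (s ω) j, hp⟩ = y j := ovr_apply (j := j) rfl
  have h13 : ovr (s ω) y' ω.1 ⟨cpos (s ω) j, hp⟩ = y' j := ovr_apply (j := j) rfl
  exact h12.symm.trans (h11.trans h13)

end Count

theorem p_hyb : P_hyb := by
  intro E Λ a t m N β D hat hN hD
  set τ := (t - 4) / 3 with hτ
  have h1 : Nat.card {ω : Pos a m → Bool //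
      D.run (Ok E (ext Λ ω)) ≠ D.run (blind t (Ok E (ext Λ ω)))} * 2 ^ τ ≤
      N * Nat.card (Pos a m → Bool) := by
    have h2 : Nat.card {ω : Pos a m → Bool //
        D.run (Ok E (ext Λ ω)) ≠ D.run (blind t (Ok E (ext Λ ω)))} ≤
        Nat.card (Σ i : Fin N, {ω : Pos a m → Bool // ∃ s b, hit E (ext Λ ω) t D i s b}) := by
      choose i hi using fun ω : {ω : Pos a m → Bool //
        D.run (Ok E (ext Λ ω)) ≠ D.run (blind t (Ok E (ext Λ ω)))} => exists_hit hN ω.2
      refine Nat.card_le_card_of_injective (fun ω => ⟨⟨i ω, (hi ω).1⟩, ⟨ω.1, (hi ω).2⟩⟩) ?_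
      intro ω ω' h
      have h3 := congrArg (fun p : (Σ i : Fin N, {ω : Pos a m → Bool //
        ∃ s b, hit E (ext Λ ω) t D i s b}) => p.2.1) h
      exact Subtype.ext h3
    rw [Nat.card_sigma] at h2
    calc Nat.card {ω : Pos a m → Bool //
        D.run (Ok E (ext Λ ω)) ≠ D.run (blind t (Ok E (ext Λ ω)))} * 2 ^ τ
        ≤ (∑ i : Fin N, Nat.card {ω : Pos a m → Bool //
            ∃ s b, hit E (ext Λ ω) t D i s b}) * 2 ^ τ := Nat.mul_le_mul_right _ h2
      _ = ∑ i : Fin N, Nat.card {ω : Pos a m → Bool //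
            ∃ s b, hit E (ext Λ ω) t D i s b} * 2 ^ τ := Finset.sum_mul _ _ _
      _ ≤ ∑ _i : Fin N, Nat.card (Pos a m → Bool) :=
          Finset.sum_le_sum fun i _ => card_hit E Λ a t m D i hat hD
      _ = N * Nat.card (Pos a m → Bool) := by
          rw [Finset.sum_const, Finset.card_univ, Fintype.card_fin, smul_eq_mul]
  unfold prob
  rw [← Nat.card_eq_fintype_card]
  have hpos : (0 : ℝ) < Nat.card (Pos a m → Bool) := by
    have : 0 < Nat.card (Pos a m → Bool) := Nat.card_pos
    exact_mod_cast this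
  rw [div_le_div_iff₀ hpos (by positivity)]
  exact_mod_cast h1

end Pool.Agent.W2helper53.PK
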